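import Mathlib

open Cardinal Set Function

namespace Pool.Agent.Results.MP_f81d0d_gt.DensePlastic

theorem const_of_small_range {u : ℝ → ℝ} (hu : Continuous u) (h : #(range u) < 𝔠) (s t : ℝ) :
    u s = u t := by
  by_contra hne
  wlog hlt : u s < u t generalizing s t
  · exact this t s (Ne.symm hne) (lt_of_le_of_ne (not_lt.mp hlt) (Ne.symm hne))
  have h1 : Icc (u s) (u t) ⊆ range u := intermediate_value_univ s t hu
  have h2 : #(Icc (u s) (u t)) = 𝔠 := Cardinal.mk_Icc_real hlt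
  have h3 := Cardinal.mk_le_mk_of_subset h1
  rw [h2] at h3
  exact absurd h3 (not_le.mpr h)

theorem small_union {α : Type} {A B : Set α} (hA : #A < 𝔠) (hB : #B < 𝔠) :
    #(A ∪ B : Set α) < 𝔠 :=
  (Cardinal.mk_union_le A B).trans_lt (Cardinal.add_lt_of_lt Cardinal.aleph0_le_continuum hA hB)

theorem small_image {α β : Type} {A : Set α} (f : α → β) (hA : #A < 𝔠) : #(f '' A) < 𝔠 :=
  Cardinal.mk_image_le.trans_lt hA

theorem small_image2 {α β γ : Type} {A : Set α} {B : Set β} (f : α → β → γ)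
    (hA : #A < 𝔠) (hB : #B < 𝔠) : #(image2 f A B) < 𝔠 := by
  have h : image2 f A B = range (fun q : A × B => f q.1 q.2) := by
    ext z
    simp [mem_image2]
  rw [h]
  refine Cardinal.mk_range_le.trans_lt ?_
  rw [Cardinal.mk_prod]
  simp only [Cardinal.lift_id]
  exact Cardinal.mul_lt_of_lt Cardinal.aleph0_le_continuum hA hB

theorem small_countable {α : Type} {A : Set α} (hA : A.Countable) : #A < 𝔠 :=
  hA.le_aleph0.trans_lt Cardinal.aleph0_lt_continuum

theorem small_span {X : Set (ℝ × ℝ)} (hX : #X < 𝔠) :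
    #(Submodule.span ℤ X : Set (ℝ × ℝ)) < 𝔠 := by
  have h : (Submodule.span ℤ X : Set (ℝ × ℝ)) =
      range (Finsupp.linearCombination ℤ (Subtype.val : X → ℝ × ℝ)) := by
    rw [← LinearMap.coe_range, Finsupp.range_linearCombination]
    simp
  rw [h]
  refine Cardinal.mk_range_le.trans_lt ?_
  rcases isEmpty_or_nonempty X with hX0 | hX0
  · exact (Cardinal.mk_le_aleph0).trans_lt Cardinal.aleph0_lt_continuum
  · rw [Cardinal.mk_finsupp_of_infinite']
    exact max_lt hX (Cardinal.mk_le_aleph0.trans_lt Cardinal.aleph0_lt_continuum)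

theorem exists_point {F : ℝ × ℝ → ℝ × ℝ} (hF : Continuous F)
    (hne : ¬ ∃ (n : ℤ) (w : ℝ × ℝ), ∀ x, F x = n • x + w)
    {E : Set (ℝ × ℝ)} (hE : #E < 𝔠) {B : Set (ℝ × ℝ)} (hB : #B < 𝔠) :
    ∃ y, (∀ n : ℤ, F y - n • y ∉ E) ∧ (∀ n : ℤ, n ≠ 0 → ∀ b ∈ B, b - n • y ∉ E) := by
  by_contra! hcon
  have hZ : #(univ : Set ℤ) < 𝔠 := small_countable countable_univ
  set S : Set (ℝ × ℝ) := image2 (fun (n : ℤ) (z : ℝ × ℝ) => (n : ℝ)⁻¹ • z) univ
    (image2 (fun b e => b - e) B E) with hS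
  have hSs : #S < 𝔠 := small_image2 _ hZ (small_image2 _ hB hE)
  have key : ∀ y, y ∉ S → ∃ n : ℤ, F y - n • y ∈ E := by
    intro y hy
    by_contra! h
    obtain ⟨n, hn, b, hb, hbE⟩ := hcon y h
    apply hy
    refine ⟨n, mem_univ _, n • y, ⟨b, hb, b - n • y, hbE, by simp⟩, ?_⟩
    have : (n : ℝ) ≠ 0 := by exact_mod_cast hn
    ext
    · simp; field_simp
    · simp; field_simp
  have det : ∀ p v : ℝ × ℝ, v.2 * (F (p + v)).1 - v.1 * (F (p + v)).2
      = v.2 * (F p).1 - v.1 * (F p).2 := by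
    intro p v
    have hc := const_of_small_range (u := fun t : ℝ =>
      v.2 * (F (p + t • v)).1 - v.1 * (F (p + t • v)).2) (by fun_prop) ?_ 1 0
    · simpa using hc
    · have hsub : range (fun t : ℝ =>
          v.2 * (F (p + t • v)).1 - v.1 * (F (p + t • v)).2) ⊆
          image2 (fun (n : ℤ) (e : ℝ × ℝ) =>
            (v.2 * e.1 - v.1 * e.2) + n * (v.2 * p.1 - v.1 * p.2)) univ E ∪
          (fun z => v.2 * (F z).1 - v.1 * (F z).2) '' S := by
        rintro _ ⟨t, rfl⟩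
        by_cases hy : p + t • v ∈ S
        · right
          exact ⟨_, hy, rfl⟩
        · left
          obtain ⟨n, hn⟩ := key _ hy
          refine ⟨n, mem_univ _, _, hn, ?_⟩
          simp
          ring
      exact (Cardinal.mk_le_mk_of_subset hsub).trans_lt
        (small_union (small_image2 _ hZ hE) (small_image _ hSs))
  -- `F` is affine with scalar linear part
  obtain ⟨lam, hlam⟩ : ∃ lam : ℝ, ∀ x, F x = lam • x + F 0 := by
    have d0 : ∀ v : ℝ × ℝ, v.2 * (F v).1 - v.1 * (F v).2 = v.2 * (F 0).1 - v.1 * (F 0).2 := by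
      intro v; simpa using det 0 v
    refine ⟨(F (1, 0)).1 - (F 0).1, fun x => ?_⟩
    obtain ⟨a, b⟩ := x
    have e1 := d0 (1, 0)
    have e2 := d0 (0, 1)
    have e3 := det (1, 0) (-1, 1)
    have e4 := d0 (a, b)
    have e5 := det (1, 0) (a - 1, b)
    have e6 := det (0, 1) (a, b - 1)
    simp at e1 e2 e3 e4 e5 e6
    ext
    · simp
      linear_combination e4 - e6 - (b - 1) * e2 + a * e3 + a * e1 - a * e2
    · simp
      linear_combination e5 - e4 - (a - 1) * e1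
  have hnint : ∀ n : ℤ, lam - n ≠ 0 := by
    intro n hn
    apply hne
    refine ⟨n, F 0, fun x => ?_⟩
    have : lam = n := by linarith
    rw [hlam x, this, Int.cast_smul_eq_zsmul]
  have huniv : (univ : Set (ℝ × ℝ)) ⊆
      S ∪ image2 (fun (n : ℤ) (e : ℝ × ℝ) => (lam - n)⁻¹ • (e - F 0)) univ E := by
    intro y _
    by_cases hy : y ∈ S
    · left; exact hy
    · right
      obtain ⟨n, hn⟩ := key _ hy
      refine ⟨n, mem_univ _, _, hn, ?_⟩
      have hh := hnint n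
      rw [hlam y]
      ext
      · simp; field_simp; ring
      · simp; field_simp; ring
  have hcard : #(univ : Set (ℝ × ℝ)) < 𝔠 :=
    (Cardinal.mk_le_mk_of_subset huniv).trans_lt (small_union hSs (small_image2 _ hZ hE))
  rw [Cardinal.mk_univ, Cardinal.mk_prod] at hcard
  simp only [Cardinal.mk_real, Cardinal.lift_id, Cardinal.continuum_mul_self, lt_self_iff_false]
    at hcard

theorem exists_rec {ι V : Type} [LinearOrder ι] [WellFoundedLT ι]
    (P : (i : ι) → ((j : ι) → j < i → V) → V → Prop) (H : ∀ i p, ∃ y, P i p y) :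
    ∃ x : ι → V, ∀ i, P i (fun j _ => x j) (x i) := by
  classical
  let G : (i : ι) → ((j : ι) → j < i → V) → V := fun i p => Classical.choose (H i p)
  let x : ι → V := (wellFounded_lt (α := ι)).fix G
  refine ⟨x, fun i => ?_⟩
  have h1 : x i = G i (fun j _ => x j) := (wellFounded_lt (α := ι)).fix_eq G i
  have h2 := Classical.choose_spec (H i (fun j _ => x j))
  rw [h1]
  exact h2

/-- The index type: the well-ordered type of the initial ordinal of the continuum. -/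
abbrev Idx : Type := (Cardinal.ord 𝔠).ToType

theorem mk_idx : #Idx = 𝔠 := Cardinal.mk_ord_toType 𝔠

theorem mk_Iio_idx (i : Idx) : #(Iio i) < 𝔠 := by
  simpa using Cardinal.mk_Iio_lt i

theorem mk_continuous : #{F : ℝ × ℝ → ℝ × ℝ // Continuous F} ≤ 𝔠 := by
  let D : ℚ × ℚ → ℝ × ℝ := fun q => ((q.1 : ℝ), (q.2 : ℝ))
  have hD : DenseRange D := (Rat.denseRange_cast (𝕜 := ℝ)).prodMap (Rat.denseRange_cast (𝕜 := ℝ))
  have hinj : Function.Injective
      (fun (F : {F : ℝ × ℝ → ℝ × ℝ // Continuous F}) => (F.1 ∘ D : ℚ × ℚ → ℝ × ℝ)) := by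
    intro F G h
    apply Subtype.ext
    exact hD.equalizer F.2 G.2 h
  refine (Cardinal.mk_le_of_injective hinj).trans ?_
  rw [← Cardinal.power_def, Cardinal.mk_prod]
  simp only [Cardinal.mk_real, Cardinal.lift_id, Cardinal.continuum_mul_self]
  have : #(ℚ × ℚ) = ℵ₀ := Cardinal.mk_eq_aleph0 _
  rw [this, Cardinal.continuum_power_aleph0]

theorem exists_group : ∃ G : AddSubgroup (ℝ × ℝ), Dense (G : Set (ℝ × ℝ)) ∧
    ∀ F : ℝ × ℝ → ℝ × ℝ, Continuous F → (∀ x ∈ G, F x ∈ G) →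
      ∃ (n : ℤ) (w : ℝ × ℝ), ∀ x, F x = n • x + w := by
  classical
  -- enumerate along `Idx` all continuous maps that are not of the form `x ↦ n • x + w`
  obtain ⟨e, he⟩ : ∃ e : Idx → {F : ℝ × ℝ → ℝ × ℝ // Continuous F ∧
      ¬ ∃ (n : ℤ) (w : ℝ × ℝ), ∀ x, F x = n • x + w}, Function.Surjective e := by
    have hne : Nonempty {F : ℝ × ℝ → ℝ × ℝ // Continuous F ∧
        ¬ ∃ (n : ℤ) (w : ℝ × ℝ), ∀ x, F x = n • x + w} := by
      refine ⟨⟨fun x => (x.1, 0), by fun_prop, ?_⟩⟩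
      rintro ⟨n, w, h⟩
      have h1 := h (0, 0)
      have h2 := h (1, 0)
      have h3 := h (0, 1)
      simp [Prod.ext_iff] at h1 h2 h3
      linarith [h1.1, h1.2, h2.1, h3.2]
    have hle : #{F : ℝ × ℝ → ℝ × ℝ // Continuous F ∧
        ¬ ∃ (n : ℤ) (w : ℝ × ℝ), ∀ x, F x = n • x + w} ≤ #Idx := by
      rw [mk_idx]
      refine le_trans ?_ mk_continuous
      exact Cardinal.mk_le_of_injective (f := fun F => ⟨F.1, F.2.1⟩)
        (fun F G h => Subtype.ext (congrArg (fun k => k.1) h))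
    obtain ⟨g⟩ := (Cardinal.le_def _ _).mp hle
    exact ⟨Function.invFun g, Function.invFun_surjective g.injective⟩
  let Q : ℚ × ℚ → ℝ × ℝ := fun q => ((q.1 : ℝ), (q.2 : ℝ))
  have hQ : DenseRange Q :=
    (Rat.denseRange_cast (𝕜 := ℝ)).prodMap (Rat.denseRange_cast (𝕜 := ℝ))
  have hQs : #(range Q) < 𝔠 := small_countable (countable_range Q)
  let P : (i : Idx) → ((j : Idx) → j < i → ℝ × ℝ) → ℝ × ℝ → Prop := fun i p y =>
    (∀ n : ℤ, (e i).1 y - n • y ∉
      (Submodule.span ℤ (range Q ∪ range (fun j : Iio i => p j.1 j.2)) : Set (ℝ × ℝ))) ∧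
    (∀ n : ℤ, n ≠ 0 → ∀ b ∈ range (fun j : Iio i => (e j.1).1 (p j.1 j.2)), b - n • y ∉
      (Submodule.span ℤ (range Q ∪ range (fun j : Iio i => p j.1 j.2)) : Set (ℝ × ℝ)))
  have hP : ∀ i p, ∃ y, P i p y := by
    intro i p
    apply exists_point (e i).2.1 (e i).2.2
    · apply small_span
      apply small_union hQs
      exact Cardinal.mk_range_le.trans_lt (mk_Iio_idx i)
    · exact Cardinal.mk_range_le.trans_lt (mk_Iio_idx i)
  obtain ⟨x, hx⟩ := exists_rec P hP
  let E : Idx → Submodule ℤ (ℝ × ℝ) := fun i =>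
    Submodule.span ℤ (range Q ∪ range (fun j : Iio i => x j.1))
  have hx1 : ∀ i, ∀ n : ℤ, (e i).1 (x i) - n • x i ∉ E i := fun i => (hx i).1
  have hx2 : ∀ i j, j < i → ∀ n : ℤ, n ≠ 0 → (e j).1 (x j) - n • x i ∉ E i := by
    intro i j hij n hn
    exact (hx i).2 n hn _ ⟨⟨j, hij⟩, rfl⟩
  have hQE : ∀ i, Submodule.span ℤ (range Q) ≤ E i := fun i =>
    Submodule.span_mono subset_union_left
  have hxE : ∀ i j, j < i → x j ∈ E i := fun i j hij =>
    Submodule.subset_span (Or.inr ⟨⟨j, hij⟩, rfl⟩)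
  have main : ∀ i, (e i).1 (x i) ∉ Submodule.span ℤ (range Q ∪ range x) := by
    intro i hi
    rw [Submodule.span_union, Submodule.mem_sup] at hi
    obtain ⟨d, hd, z, hz, hdz⟩ := hi
    rw [Finsupp.mem_span_range_iff_exists_finsupp] at hz
    obtain ⟨c, rfl⟩ := hz
    rcases c.support.eq_empty_or_nonempty with h0 | hne
    · have hc0 : c = 0 := Finsupp.support_eq_empty.mp h0
      subst hc0
      apply hx1 i 0
      rw [← hdz]
      simpa using hQE i hd
    · set k := c.support.max' hne with hk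
      have hkmem : k ∈ c.support := Finset.max'_mem _ _
      have hck : c k ≠ 0 := Finsupp.mem_support_iff.mp hkmem
      have hsum : (c.sum fun j a => a • x j) = (∑ j ∈ c.support.erase k, c j • x j) + c k • x k := by
        rw [Finsupp.sum, Finset.sum_erase_add _ _ hkmem]
      have hlt : ∀ j ∈ c.support.erase k, j < k := by
        intro j hj
        have hj' := Finset.mem_erase.mp hj
        exact lt_of_le_of_ne (Finset.le_max' _ _ hj'.2) hj'.1
      have hr : d + (∑ j ∈ c.support.erase k, c j • x j) ∈ E k := by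
        refine Submodule.add_mem _ (hQE k hd) (Submodule.sum_mem _ fun j hj => ?_)
        exact Submodule.smul_mem _ _ (hxE k j (hlt j hj))
      have heq : (e i).1 (x i) - c k • x k = d + (∑ j ∈ c.support.erase k, c j • x j) := by
        rw [← hdz, hsum]; abel
      rcases lt_trichotomy k i with hki | hki | hki
      · apply hx1 i 0
        rw [← hdz, hsum]
        have h1 : d ∈ E i := hQE i hd
        have h2 : (∑ j ∈ c.support.erase k, c j • x j) ∈ E i :=
          Submodule.sum_mem _ fun j hj =>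
            Submodule.smul_mem _ _ (hxE i j ((hlt j hj).trans hki))
        have h3 : c k • x k ∈ E i := Submodule.smul_mem _ _ (hxE i k hki)
        simpa using Submodule.add_mem _ h1 (Submodule.add_mem _ h2 h3)
      · apply hx1 i (c k)
        rw [← heq, hki] at hr
        rw [hki]
        exact hr
      · apply hx2 k i hki (c k) hck
        rw [heq]
        exact hr
  refine ⟨(Submodule.span ℤ (range Q ∪ range x)).toAddSubgroup, ?_, ?_⟩
  · refine Dense.mono ?_ hQ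
    intro z hz
    exact Submodule.subset_span (Or.inl hz)
  · intro F hF hG
    by_contra hbad
    obtain ⟨i, hi⟩ := he ⟨F, hF, hbad⟩
    apply main i
    rw [hi]
    exact hG (x i) (Submodule.subset_span (Or.inr ⟨i, rfl⟩))

/-- There is a dense subgroup of the plane, with the `ℓ₁` metric
`|x₁ - y₁| + |x₂ - y₂|`, every non-expansive bijection of which is an isometry. -/
theorem result : ∃ G : AddSubgroup (ℝ × ℝ), Dense (G : Set (ℝ × ℝ)) ∧
    ∀ f : G → G, Function.Bijective f →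
      (∀ u v : G, |(f u : ℝ × ℝ).1 - (f v : ℝ × ℝ).1| + |(f u : ℝ × ℝ).2 - (f v : ℝ × ℝ).2| ≤
        |(u : ℝ × ℝ).1 - (v : ℝ × ℝ).1| + |(u : ℝ × ℝ).2 - (v : ℝ × ℝ).2|) →
      ∀ u v : G, |(f u : ℝ × ℝ).1 - (f v : ℝ × ℝ).1| + |(f u : ℝ × ℝ).2 - (f v : ℝ × ℝ).2| =
        |(u : ℝ × ℝ).1 - (v : ℝ × ℝ).1| + |(u : ℝ × ℝ).2 - (v : ℝ × ℝ).2| := by
  classical
  obtain ⟨G, hGd, hG⟩ := exists_group
  refine ⟨G, hGd, fun f hf hne => ?_⟩
  -- coordinates of `f`, extended by zero outside `G`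
  let g1 : ℝ × ℝ → ℝ := fun x => if h : x ∈ G then (f ⟨x, h⟩ : ℝ × ℝ).1 else 0
  let g2 : ℝ × ℝ → ℝ := fun x => if h : x ∈ G then (f ⟨x, h⟩ : ℝ × ℝ).2 else 0
  have hsum : ∀ u v : ℝ × ℝ, |u.1 - v.1| + |u.2 - v.2| ≤ 2 * dist u v := by
    intro u v
    rw [Prod.dist_eq, Real.dist_eq, Real.dist_eq]
    have h1 := le_max_left |u.1 - v.1| |u.2 - v.2|
    have h2 := le_max_right |u.1 - v.1| |u.2 - v.2|
    linarith
  have hl1 : LipschitzOnWith 2 g1 (G : Set (ℝ × ℝ)) := by
    apply LipschitzOnWith.of_dist_le_mul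
    intro u hu v hv
    have hu' : u ∈ G := hu
    have hv' : v ∈ G := hv
    have h := hne ⟨u, hu'⟩ ⟨v, hv'⟩
    have h2 := hsum u v
    simp only [g1, hu', hv', dif_pos, Real.dist_eq]
    have h3 := abs_nonneg ((f ⟨u, hu'⟩ : ℝ × ℝ).2 - (f ⟨v, hv'⟩ : ℝ × ℝ).2)
    simp at h ⊢
    linarith
  have hl2 : LipschitzOnWith 2 g2 (G : Set (ℝ × ℝ)) := by
    apply LipschitzOnWith.of_dist_le_mul
    intro u hu v hv
    have hu' : u ∈ G := hu
    have hv' : v ∈ G := hv
    have h := hne ⟨u, hu'⟩ ⟨v, hv'⟩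
    have h2 := hsum u v
    simp only [g2, hu', hv', dif_pos, Real.dist_eq]
    have h3 := abs_nonneg ((f ⟨u, hu'⟩ : ℝ × ℝ).1 - (f ⟨v, hv'⟩ : ℝ × ℝ).1)
    simp at h ⊢
    linarith
  obtain ⟨F1, hF1, hE1⟩ := hl1.extend_real
  obtain ⟨F2, hF2, hE2⟩ := hl2.extend_real
  have hval : ∀ u : G, (F1 u, F2 u) = (f u : ℝ × ℝ) := by
    intro u
    have h1 : g1 u = F1 u := hE1 u.2
    have h2 : g2 u = F2 u := hE2 u.2
    rw [← h1, ← h2]
    simp [g1, g2]
  obtain ⟨n, w, hnw⟩ := hG (fun x => (F1 x, F2 x))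
    (hF1.continuous.prodMk hF2.continuous) (fun x hx => by
      rw [hval ⟨x, hx⟩]; exact (f ⟨x, hx⟩).2)
  have hfu : ∀ u : G, (f u : ℝ × ℝ) = n • (u : ℝ × ℝ) + w := fun u => by
    rw [← hval u]; exact hnw u
  -- a nonzero element of `G`
  obtain ⟨z, hz, hz0⟩ : ∃ z ∈ G, z ≠ 0 := by
    by_contra! h
    have hsub : (G : Set (ℝ × ℝ)) ⊆ {0} := fun z hz => h z hz
    have h1 := hGd.mono hsub
    have h2 : closure ({0} : Set (ℝ × ℝ)) = {0} := closure_singleton
    have h3 : ((1, 0) : ℝ × ℝ) ∈ closure ({0} : Set (ℝ × ℝ)) := h1 _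
    rw [h2] at h3
    simp at h3
  have hn0 : n ≠ 0 := by
    rintro rfl
    have h1 : f ⟨z, hz⟩ = f 0 := by
      apply Subtype.ext
      rw [hfu, hfu]; simp
    have h2 := hf.1 h1
    exact hz0 (congrArg (fun k : G => (k : ℝ × ℝ)) h2)
  have hdist : ∀ u v : G, |(f u : ℝ × ℝ).1 - (f v : ℝ × ℝ).1| +
      |(f u : ℝ × ℝ).2 - (f v : ℝ × ℝ).2| = |(n : ℝ)| *
        (|(u : ℝ × ℝ).1 - (v : ℝ × ℝ).1| + |(u : ℝ × ℝ).2 - (v : ℝ × ℝ).2|) := by
    intro u v
    rw [hfu, hfu, mul_add, ← abs_mul, ← abs_mul]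
    simp [mul_sub]
  have hn1 : |(n : ℝ)| = 1 := by
    have h1 := hne ⟨z, hz⟩ 0
    rw [hdist] at h1
    have hpos : 0 < |z.1 - 0| + |z.2 - 0| := by
      rcases eq_or_ne z.1 0 with h | h
      · have h' : z.2 ≠ 0 := fun h'' => hz0 (Prod.ext h h'')
        have := abs_pos.mpr h'
        simp [h, this]
      · have := abs_pos.mpr h
        simp
        positivity
    have h2 : |(n : ℝ)| ≤ 1 := by
      by_contra hcon
      push Not at hcon
      have : 1 * (|z.1 - 0| + |z.2 - 0|) < |(n : ℝ)| * (|z.1 - 0| + |z.2 - 0|) := by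
        gcongr
      simp at h1 this
      linarith
    have h3 : (1 : ℝ) ≤ |(n : ℝ)| := by
      exact_mod_cast Int.one_le_abs hn0
    linarith
  intro u v
  rw [hdist, hn1, one_mul]

end Pool.Agent.Results.MP_f81d0d_gt.DensePlastic
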